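import Mathlib
import Pool.Agent.Helper126.Fact

/-!
# A non-normal zero-dimensional space all of whose subsets are functionally `F_σ`
-/

set_option autoImplicit false
set_option linter.unusedSectionVars false

namespace Pool.Agent.V11242.OE

open Set Topology

/-! ### Definitions -/

section Defs

variable {X : Type} [TopologicalSpace X]

/-- `A` is functionally closed. -/
def FClosed (A : Set X) : Prop :=
  ∃ f : X → ℝ, Continuous f ∧ (∀ x, 0 ≤ f x ∧ f x ≤ 1) ∧ A = {x | f x = 0}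

/-- `A` is functionally open. -/
def FOpen (A : Set X) : Prop :=
  ∃ f : X → ℝ, Continuous f ∧ (∀ x, 0 ≤ f x ∧ f x ≤ 1) ∧ A = {x | 0 < f x}

/-- `A` is functionally `F_σ`. -/
def FSigma (A : Set X) : Prop := ∃ Z : ℕ → Set X, (∀ n, FClosed (Z n)) ∧ A = ⋃ n, Z n

/-- `A` is functionally `G_δ`. -/
def GDelta (A : Set X) : Prop := ∃ Z : ℕ → Set X, (∀ n, FOpen (Z n)) ∧ A = ⋂ n, Z n

/-- `E` is `1`-embedded in `X`. -/
def OneEmbedded (E : Set X) : Prop :=
  (∀ A : Set E, FSigma A → ∃ B : Set X, FSigma B ∧ A = Subtype.val ⁻¹' B) ∧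
    ∀ A : Set E, GDelta A → ∃ B : Set X, GDelta B ∧ A = Subtype.val ⁻¹' B

variable (X) in
/-- `X` is completely regular (without `T₁`). -/
def ComplReg : Prop :=
  ∀ (F : Set X) (x : X), IsClosed F → x ∉ F → ∃ f : X → ℝ, Continuous f ∧ f x = 0 ∧ ∀ y ∈ F, f y = 1

end Defs

/-! ### General facts -/

section Gen

variable {X : Type} [TopologicalSpace X]

theorem FClosed.compl {A : Set X} (h : FClosed A) : FOpen Aᶜ := by
  obtain ⟨f, hf, h01, rfl⟩ := h
  refine ⟨f, hf, h01, ?_⟩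
  ext x
  exact ⟨fun h => lt_of_le_of_ne (h01 x).1 (Ne.symm h), fun h => ne_of_gt h⟩

theorem FOpen.compl {A : Set X} (h : FOpen A) : FClosed Aᶜ := by
  obtain ⟨f, hf, h01, rfl⟩ := h
  refine ⟨f, hf, h01, ?_⟩
  ext x
  exact ⟨fun h => le_antisymm (not_lt.1 h) (h01 x).1, fun h h' => absurd h (ne_of_gt h')⟩

theorem FSigma.compl {A : Set X} (h : FSigma A) : GDelta Aᶜ := by
  obtain ⟨Z, hZ, rfl⟩ := h
  exact ⟨fun n => (Z n)ᶜ, fun n => (hZ n).compl, compl_iUnion Z⟩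

theorem GDelta.compl {A : Set X} (h : GDelta A) : FSigma Aᶜ := by
  obtain ⟨Z, hZ, rfl⟩ := h
  exact ⟨fun n => (Z n)ᶜ, fun n => (hZ n).compl, compl_iInter Z⟩

/-- a countable intersection of clopen sets is functionally closed -/
theorem fClosed_iInter {W : ℕ → Set X} (hW : ∀ n, IsClopen (W n)) : FClosed (⋂ n, W n) := by
  classical
  let _ : MetricSpace (ℕ → Bool) := TopologicalSpace.metrizableSpaceMetric (ℕ → Bool)
  let φ : X → ℕ → Bool := fun x n => decide (x ∈ W n)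
  have hφ : Continuous φ := by
    refine continuous_pi fun n => ?_
    have h1 : (fun x => φ x n) = fun x => decide (x ∈ W n) := rfl
    rw [h1, continuous_discrete_rng]
    intro b
    cases b
    · have h2 : (fun x => decide (x ∈ W n)) ⁻¹' {false} = (W n)ᶜ := by
        ext x
        simp
      rw [h2]
      exact (hW n).compl.isOpen
    · have h2 : (fun x => decide (x ∈ W n)) ⁻¹' {true} = W n := by
        ext x
        simp
      rw [h2]
      exact (hW n).isOpen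
  refine ⟨fun x => min (dist (φ x) fun _ => true) 1,
    (hφ.dist continuous_const).min continuous_const,
    fun x => ⟨le_min dist_nonneg zero_le_one, min_le_right _ _⟩, ?_⟩
  ext x
  rw [mem_iInter, mem_ofPred_eq]
  constructor
  · intro h
    have h1 : φ x = fun _ => true := funext fun n => decide_eq_true (h n)
    show min (dist (φ x) fun _ => true) 1 = 0
    rw [h1, dist_self]
    exact min_eq_left zero_le_one
  · intro h n
    have h1 : dist (φ x) (fun _ => true) = 0 := by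
      have h : min (dist (φ x) fun _ => true) 1 = 0 := h
      rcases min_choice (dist (φ x) fun _ => true) 1 with h2 | h2
      · rw [h2] at h
        exact h
      · rw [h2] at h
        exact absurd h one_ne_zero
    have h2 := congrFun (dist_eq_zero.1 h1) n
    exact of_decide_eq_true h2

theorem oneEmbedded_of (h : ∀ A : Set X, FSigma A) (E : Set X) : OneEmbedded E := by
  have h' : ∀ A : Set X, GDelta A := fun A => by
    rw [← compl_compl A]
    exact (h Aᶜ).compl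
  exact ⟨fun A _ => ⟨Subtype.val '' A, h _, (preimage_image_eq A Subtype.val_injective).symm⟩,
    fun A _ => ⟨Subtype.val '' A, h' _, (preimage_image_eq A Subtype.val_injective).symm⟩⟩

theorem fSigma_iUnion {A : ℕ → Set X} (h : ∀ n, FSigma (A n)) : FSigma (⋃ n, A n) := by
  choose Z hZ hA using h
  refine ⟨fun k => Z (Nat.unpair k).1 (Nat.unpair k).2, fun k => hZ _ _, ?_⟩
  ext x
  simp only [mem_iUnion]
  constructor
  · rintro ⟨n, hn⟩
    rw [hA] at hn
    obtain ⟨m, hm⟩ := mem_iUnion.1 hn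
    exact ⟨Nat.pair n m, by rw [Nat.unpair_pair]; exact hm⟩
  · rintro ⟨k, hk⟩
    exact ⟨(Nat.unpair k).1, by rw [hA]; exact mem_iUnion.2 ⟨_, hk⟩⟩

theorem FSigma.union {A B : Set X} (hA : FSigma A) (hB : FSigma B) : FSigma (A ∪ B) := by
  have h1 : A ∪ B = ⋃ n : ℕ, if n = 0 then A else B := by
    ext x
    rw [mem_iUnion]
    constructor
    · rintro (h | h)
      · exact ⟨0, by simpa using h⟩
      · exact ⟨1, by simpa using h⟩
    · rintro ⟨n, hn⟩
      by_cases h0 : n = 0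
      · rw [if_pos h0] at hn
        exact Or.inl hn
      · rw [if_neg h0] at hn
        exact Or.inr hn
  rw [h1]
  refine fSigma_iUnion fun n => ?_
  by_cases h0 : n = 0
  · rw [if_pos h0]
    exact hA
  · rw [if_neg h0]
    exact hB

theorem FClosed.fSigma {A : Set X} (h : FClosed A) : FSigma A := ⟨fun _ => A, fun _ => h, (iUnion_const _).symm⟩

theorem complReg_of_clopen
    (h : ∀ (x : X) (U : Set X), IsOpen U → x ∈ U → ∃ V, IsClopen V ∧ x ∈ V ∧ V ⊆ U) :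
    ComplReg X := by
  classical
  intro F x hF hx
  obtain ⟨V, hV, hxV, hVF⟩ := h x Fᶜ hF.isOpen_compl hx
  obtain ⟨f, hf, -, hfV⟩ := (fClosed_iInter (W := fun _ => V) fun _ => hV)
  refine ⟨fun y => if y ∈ V then 0 else 1, ?_, by simp [hxV], fun y hy => ?_⟩
  · rw [continuous_def]
    intro s _
    by_cases h0 : (0 : ℝ) ∈ s <;> by_cases h1 : (1 : ℝ) ∈ s
    · have : (fun y => if y ∈ V then (0 : ℝ) else 1) ⁻¹' s = univ := by
        ext y
        by_cases hy : y ∈ V <;> simp [hy, h0, h1]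
      rw [this]
      exact isOpen_univ
    · have : (fun y => if y ∈ V then (0 : ℝ) else 1) ⁻¹' s = V := by
        ext y
        by_cases hy : y ∈ V <;> simp [hy, h0, h1]
      rw [this]
      exact hV.isOpen
    · have : (fun y => if y ∈ V then (0 : ℝ) else 1) ⁻¹' s = Vᶜ := by
        ext y
        by_cases hy : y ∈ V <;> simp [hy, h0, h1]
      rw [this]
      exact hV.compl.isOpen
    · have : (fun y => if y ∈ V then (0 : ℝ) else 1) ⁻¹' s = ∅ := by
        ext y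
        by_cases hy : y ∈ V <;> simp [hy, h0, h1]
      rw [this]
      exact isOpen_empty
  · have : y ∉ V := fun h => hVF h hy
    simp [this]

end Gen

/-! ### The space -/

/-- the index set of the points of rank `0` -/
abbrev Ix : Type := ℕ → Bool

/-- the points of rank at most `n` -/
def Yt : ℕ → Type
  | 0 => Ix
  | n + 1 => Yt n ⊕ Finset (Set (Yt n))

/-- the points of rank `n` -/
def Lv : ℕ → Type
  | 0 => Ix
  | n + 1 => Finset (Set (Yt n))

/-- all points with a rank -/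
abbrev Y : Type := Σ n, Lv n

/-- the embeddings -/
def emb : ∀ n, Yt n → Y
  | 0, i => ⟨0, i⟩
  | n + 1, Sum.inl u => emb n u
  | n + 1, Sum.inr v => ⟨n + 1, v⟩

theorem exists_emb : ∀ (n : ℕ) (y : Y), y.1 ≤ n → ∃ u, emb n u = y
  | 0, ⟨0, i⟩, _ => ⟨i, rfl⟩
  | 0, ⟨n + 1, v⟩, h => absurd h (Nat.not_succ_le_zero n)
  | n + 1, ⟨m, v⟩, h => by
    rcases Nat.lt_or_ge n m with h1 | h1
    · have h2 : m = n + 1 := le_antisymm h h1
      subst h2
      exact ⟨Sum.inr v, rfl⟩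
    · obtain ⟨u, hu⟩ := exists_emb n ⟨m, v⟩ h1
      exact ⟨Sum.inl u, hu⟩

/-- the coordinates -/
abbrev C : Type := (ℕ × Set Y) ⊕ Y

/-- the trace of a coordinate on the points of rank at most `n` -/
def tr (n m : ℕ) (A : Set Y) : Set (Yt n) := {u | emb n u ∈ A ∧ (emb n u).1 ≤ m}

/-- the default value of a coordinate -/
def dflt : Y → ℕ × Set Y → Prop
  | ⟨0, _⟩, _ => False
  | ⟨n + 1, v⟩, c => @Membership.mem (Set (Yt n)) (Finset (Set (Yt n))) _ v (tr n c.1 c.2)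

/-- the coordinates of a point -/
def hat (y : Y) : Set C := {c | match c with
  | Sum.inl c => (y.1 ≤ c.1 ∧ y ∈ c.2) ∨ (c.1 < y.1 ∧ dflt y c)
  | Sum.inr w => w = y}

theorem mem_hat_inl {y : Y} {m : ℕ} {A : Set Y} : (Sum.inl (m, A) : C) ∈ hat y ↔
    (y.1 ≤ m ∧ y ∈ A) ∨ (m < y.1 ∧ dflt y (m, A)) := Iff.rfl

theorem mem_hat_inr {y w : Y} : (Sum.inr w : C) ∈ hat y ↔ w = y := Iff.rfl

/-- The space. -/
def X : Type := Y ⊕ (ℕ × Set C)

instance : TopologicalSpace X where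
  IsOpen W := ∀ y : Y, (Sum.inl y : Y ⊕ (ℕ × Set C)) ∈ (W : Set (Y ⊕ (ℕ × Set C))) →
    ∃ (F : Finset C) (k : ℕ), ∀ k' x, k ≤ k' → (∀ c ∈ F, c ∈ x ↔ c ∈ hat y) →
      (Sum.inr (k', x) : Y ⊕ (ℕ × Set C)) ∈ (W : Set (Y ⊕ (ℕ × Set C)))
  isOpen_univ := fun _ _ => ⟨∅, 0, fun _ _ _ _ => trivial⟩
  isOpen_inter := by
    classical
    intro U V hU hV y hy
    obtain ⟨F, k, h⟩ := hU y hy.1
    obtain ⟨F', k', h'⟩ := hV y hy.2
    exact ⟨F ∪ F', max k k', fun l x hl hx => ⟨h l x ((le_max_left _ _).trans hl)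
      fun c hc => hx c (Finset.mem_union_left _ hc), h' l x ((le_max_right _ _).trans hl)
      fun c hc => hx c (Finset.mem_union_right _ hc)⟩⟩
  isOpen_sUnion := by
    intro 𝒰 h𝒰 y hy
    obtain ⟨U, hU, hyU⟩ := hy
    obtain ⟨F, k, h⟩ := h𝒰 U hU y hyU
    exact ⟨F, k, fun l x hl hx => ⟨U, hU, h l x hl hx⟩⟩

/-- the points with a rank -/
def pY (y : Y) : X := Sum.inl y

/-- the isolated points -/
def pD (k : ℕ) (x : Set C) : X := Sum.inr (k, x)

theorem isOpen_iff {W : Set X} : IsOpen W ↔ ∀ y, pY y ∈ W →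
    ∃ (F : Finset C) (k : ℕ), ∀ k' x, k ≤ k' → (∀ c ∈ F, c ∈ x ↔ c ∈ hat y) → pD k' x ∈ W := Iff.rfl

theorem cases (z : X) : (∃ y, z = pY y) ∨ ∃ k x, z = pD k x := by
  rcases z with y | ⟨k, x⟩
  · exact Or.inl ⟨y, rfl⟩
  · exact Or.inr ⟨k, x, rfl⟩

theorem pY_inj {y y' : Y} (h : pY y = pY y') : y = y' := Sum.inl.inj h

theorem pY_ne_pD (y : Y) (k : ℕ) (x : Set C) : pY y ≠ pD k x := fun h => by cases h

theorem pD_inj {k k' : ℕ} {x x' : Set C} (h : pD k x = pD k' x') : k = k' ∧ x = x' := by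
  have := Sum.inr.inj h
  exact ⟨congrArg Prod.fst this, congrArg Prod.snd this⟩

/-- the clopen set given by a coordinate -/
def Cl (c : C) : Set X := {z | (∃ y, z = pY y ∧ c ∈ hat y) ∨ ∃ k x, z = pD k x ∧ c ∈ x}

theorem pY_mem_Cl {c : C} {y : Y} : pY y ∈ Cl c ↔ c ∈ hat y := by
  constructor
  · rintro (⟨y', h, h'⟩ | ⟨k, x, h, -⟩)
    · rwa [pY_inj h]
    · exact absurd h (pY_ne_pD _ _ _)
  · exact fun h => Or.inl ⟨y, rfl, h⟩

theorem pD_mem_Cl {c : C} {k : ℕ} {x : Set C} : pD k x ∈ Cl c ↔ c ∈ x := by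
  constructor
  · rintro (⟨y', h, -⟩ | ⟨k, x, h, h'⟩)
    · exact absurd h.symm (pY_ne_pD _ _ _)
    · rwa [(pD_inj h).2]
  · exact fun h => Or.inr ⟨k, x, rfl, h⟩

theorem isClopen_Cl (c : C) : IsClopen (Cl c) := by
  constructor
  · refine ⟨?_⟩
    rw [isOpen_iff]
    intro y hy
    rw [mem_compl_iff, pY_mem_Cl] at hy
    refine ⟨{c}, 0, fun k x _ hx => ?_⟩
    rw [mem_compl_iff, pD_mem_Cl, hx c (Finset.mem_singleton_self c)]
    exact hy
  · rw [isOpen_iff]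
    intro y hy
    rw [pY_mem_Cl] at hy
    refine ⟨{c}, 0, fun k x _ hx => ?_⟩
    rw [pD_mem_Cl, hx c (Finset.mem_singleton_self c)]
    exact hy

/-- the levels of isolated points -/
def Dk (k : ℕ) : Set X := range fun x => pD k x

theorem isClopen_sub_Dk {k : ℕ} {A : Set X} (hA : A ⊆ Dk k) : IsClopen A := by
  constructor
  · refine ⟨?_⟩
    rw [isOpen_iff]
    intro y _
    refine ⟨∅, k + 1, fun k' x hk' _ h => ?_⟩
    obtain ⟨x', hx'⟩ := hA h
    have := (pD_inj hx').1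
    omega
  · rw [isOpen_iff]
    intro y hy
    obtain ⟨x', hx'⟩ := hA hy
    exact absurd hx'.symm (pY_ne_pD _ _ _)

/-- basic neighbourhoods -/
def U (y : Y) (F : Finset C) (k : ℕ) : Set X :=
  insert (pY y) {z | ∃ k' x, z = pD k' x ∧ k ≤ k' ∧ ∀ c ∈ F, c ∈ x ↔ c ∈ hat y}

theorem isOpen_U (y : Y) (F : Finset C) (k : ℕ) : IsOpen (U y F k) := by
  rw [isOpen_iff]
  intro y' hy'
  rcases hy' with h | ⟨k', x, h, -⟩
  · rw [pY_inj h]
    exact ⟨F, k, fun k' x hk' hx => Or.inr ⟨k', x, rfl, hk', hx⟩⟩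
  · exact absurd h (pY_ne_pD _ _ _)

theorem isClopen_U (y : Y) (F : Finset C) (k : ℕ) (hF : (Sum.inr y : C) ∈ F) :
    IsClopen (U y F k) := by
  refine ⟨⟨?_⟩, isOpen_U y F k⟩
  rw [isOpen_iff]
  intro z hz
  have hzy : z ≠ y := fun h => hz (Or.inl (by rw [h]))
  refine ⟨{Sum.inr y}, 0, fun k' x _ hx h => ?_⟩
  rcases h with h | ⟨k'', x', h, -, h'⟩
  · exact pY_ne_pD _ _ _ h.symm
  · have h1 := h' _ hF
    rw [← (pD_inj h).2, hx _ (Finset.mem_singleton_self _)] at h1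
    exact hzy ((mem_hat_inr.1 (h1.2 (mem_hat_inr.2 rfl))).symm)

theorem clopen_base (z : X) (W : Set X) (hW : IsOpen W) (hz : z ∈ W) :
    ∃ V, IsClopen V ∧ z ∈ V ∧ V ⊆ W := by
  classical
  rcases cases z with ⟨y, rfl⟩ | ⟨k, x, rfl⟩
  · obtain ⟨F, k, h⟩ := isOpen_iff.1 hW y hz
    refine ⟨U y (insert (Sum.inr y) F) k, isClopen_U _ _ _ (Finset.mem_insert_self _ _),
      Or.inl rfl, ?_⟩
    rintro z (rfl | ⟨k', x, rfl, hk', hx⟩)
    · exact hz
    · exact h k' x hk' fun c hc => hx c (Finset.mem_insert_of_mem hc)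
  · refine ⟨{pD k x}, isClopen_sub_Dk (k := k) ?_, rfl, ?_⟩
    · rintro _ rfl
      exact ⟨x, rfl⟩
    · rintro _ rfl
      exact hz

theorem t2 : T2Space X := by
  refine ⟨fun z z' hne => ?_⟩
  have key : ∀ z z' : X, z ≠ z' → ∃ V : Set X, IsClopen V ∧ z ∈ V ∧ z' ∉ V := by
    intro z z' hne
    rcases cases z with ⟨y, rfl⟩ | ⟨k, x, rfl⟩
    · rcases cases z' with ⟨y', rfl⟩ | ⟨k', x', rfl⟩
      · refine ⟨U y {Sum.inr y} 0, isClopen_U _ _ _ (Finset.mem_singleton_self _), Or.inl rfl, ?_⟩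
        rintro (h | ⟨k, x, h, -⟩)
        · exact hne h.symm
        · exact pY_ne_pD _ _ _ h
      · refine ⟨{pD k' x'}ᶜ, (isClopen_sub_Dk (k := k') ?_).compl, hne, fun h => h rfl⟩
        rintro _ rfl
        exact ⟨x', rfl⟩
    · refine ⟨{pD k x}, isClopen_sub_Dk (k := k) ?_, rfl, fun h => hne h.symm⟩
      rintro _ rfl
      exact ⟨x, rfl⟩
  obtain ⟨V, h1, h2, h3⟩ := key z z' hne
  exact ⟨V, Vᶜ, h1.isOpen, h1.compl.isOpen, h2, h3, disjoint_compl_right⟩

/-! ### All subsets are functionally `F_σ` -/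

/-- a set of points of rank at most `m` is functionally closed -/
theorem fClosed_rank (m : ℕ) (A : Set Y) (hA : ∀ y ∈ A, y.1 ≤ m) : FClosed (pY '' A) := by
  have h1 : pY '' A = ⋂ n : ℕ, (Cl (Sum.inl (m + n, A)) ∩ (Dk n)ᶜ) := by
    ext z
    rw [mem_iInter]
    constructor
    · rintro ⟨y, hy, rfl⟩ n
      refine ⟨pY_mem_Cl.2 (mem_hat_inl.2 (Or.inl ⟨(hA y hy).trans (Nat.le_add_right _ _), hy⟩)), ?_⟩
      rintro ⟨x, hx⟩
      exact pY_ne_pD _ _ _ hx.symm
    · intro h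
      rcases cases z with ⟨y, rfl⟩ | ⟨k, x, rfl⟩
      · have h2 := pY_mem_Cl.1 (h y.1).1
        rcases mem_hat_inl.1 h2 with ⟨-, h3⟩ | ⟨h3, -⟩
        · exact ⟨y, h3, rfl⟩
        · omega
      · exact absurd ⟨x, rfl⟩ (h k).2
  rw [h1]
  exact fClosed_iInter fun n => (isClopen_Cl _).inter (isClopen_sub_Dk le_rfl).compl

theorem fSigma_all (A : Set X) : FSigma A := by
  have h1 : A = (⋃ m : ℕ, pY '' {y | y.1 ≤ m ∧ pY y ∈ A}) ∪ ⋃ k : ℕ, (A ∩ Dk k) := by
    ext z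
    constructor
    · intro hz
      rcases cases z with ⟨y, rfl⟩ | ⟨k, x, rfl⟩
      · exact Or.inl (mem_iUnion.2 ⟨y.1, y, ⟨le_rfl, hz⟩, rfl⟩)
      · exact Or.inr (mem_iUnion.2 ⟨k, hz, x, rfl⟩)
    · rintro (h | h)
      · obtain ⟨m, y, ⟨-, hy⟩, rfl⟩ := mem_iUnion.1 h
        exact hy
      · obtain ⟨k, hk, -⟩ := mem_iUnion.1 h
        exact hk
  rw [h1]
  refine FSigma.union (fSigma_iUnion fun m => FClosed.fSigma (fClosed_rank m _ fun y hy => hy.1))
    (fSigma_iUnion fun k => FClosed.fSigma ?_)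
  have h2 : A ∩ Dk k = ⋂ _ : ℕ, (A ∩ Dk k) := (iInter_const _).symm
  rw [h2]
  exact fClosed_iInter fun _ => isClopen_sub_Dk inter_subset_right

/-! ### The space is not normal -/

theorem isClosed_pY (A : Set Y) : IsClosed (pY '' A) := by
  refine ⟨?_⟩
  rw [isOpen_iff]
  intro y _
  refine ⟨∅, 0, fun k x _ _ h => ?_⟩
  obtain ⟨y', -, h⟩ := h
  exact pY_ne_pD _ _ _ h

theorem not_countable_Ix : ¬ (univ : Set Ix).Countable := by
  intro h
  have h0 : Countable Ix := countable_univ_iff.1 h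
  have h1 : Cardinal.mk Ix ≤ Cardinal.aleph0 := Cardinal.mk_le_aleph0
  have h2 : Cardinal.mk Ix = Cardinal.continuum := by
    rw [Cardinal.mk_pi]
    simp
  rw [h2] at h1
  exact absurd h1 (not_le.2 Cardinal.aleph0_lt_continuum)

/-- the points of rank `0` -/
def y0 (i : Ix) : Y := ⟨0, i⟩

theorem y0_inj : Function.Injective y0 := fun i j h => by
  have := (Sigma.mk.inj_iff.1 h).2
  exact eq_of_heq this

theorem not_normal : ¬ NormalSpace X := by
  classical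
  intro hN
  obtain ⟨A, B, hA, hB, hA0, hB0, hd⟩ := hN.normal (pY '' (range y0)) (pY '' (range y0)ᶜ)
    (isClosed_pY _) (isClosed_pY _) (by
      rw [Set.disjoint_left]
      rintro _ ⟨y, hy, rfl⟩ ⟨y', hy', h⟩
      rw [pY_inj h] at hy'
      exact hy' hy)
  have h1 : ∀ i, ∃ (F : Finset C) (k : ℕ), ∀ k' x, k ≤ k' → (∀ c ∈ F, c ∈ x ↔ c ∈ hat (y0 i)) →
      pD k' x ∈ A := fun i => isOpen_iff.1 hA _ (hA0 ⟨_, ⟨i, rfl⟩, rfl⟩)
  choose F k hF using h1
  obtain ⟨J', R, -, hJ', hR, hR'⟩ := Helper126.delta_system F univ not_countable_Ix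
  -- the values on the root
  obtain ⟨⟨ρ, k₀⟩, hJ⟩ := Helper126.uncountable_fiber
    (C := {S : Finset C // S ∈ R.powerset} × ℕ)
    (fun i => (⟨R.filter fun c => c ∈ hat (y0 i), Finset.mem_powerset.2 (Finset.filter_subset _ _)⟩,
      k i)) J' hJ'
  -- a bound of the levels of the coordinates in the root
  obtain ⟨n, hn1, hn2⟩ : ∃ n : ℕ, (∀ (m : ℕ) (D : Set Y), (Sum.inl (m, D) : C) ∈ R → m ≤ n) ∧
      ∀ w : Y, (Sum.inr w : C) ∈ R → w.1 ≤ n := by
    let e : C → ℕ := fun c => match c with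
      | Sum.inl c => c.1
      | Sum.inr w => w.1
    exact ⟨R.sup e, fun m D h => Finset.le_sup (f := e) h, fun w h => Finset.le_sup (f := e) h⟩
  -- the homogeneous set
  obtain ⟨J, hJdef⟩ : ∃ J : Set Ix, J = {i ∈ J' | ((⟨R.filter fun c => c ∈ hat (y0 i),
      Finset.mem_powerset.2 (Finset.filter_subset _ _)⟩, k i) :
      {S : Finset C // S ∈ R.powerset} × ℕ) = (ρ, k₀)} := ⟨_, rfl⟩
  rw [← hJdef] at hJ
  have hJJ' : J ⊆ J' := fun i hi => by
    rw [hJdef] at hi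
    exact hi.1
  have hρ : ∀ i ∈ J, (∀ c ∈ R, c ∈ ρ.1 ↔ c ∈ hat (y0 i)) ∧ k i = k₀ := by
    intro i hi
    rw [hJdef] at hi
    obtain ⟨-, hi⟩ := hi
    have h2 : R.filter (fun c => c ∈ hat (y0 i)) = ρ.1 := congrArg (fun z => z.1.1) hi
    have h3 : k i = k₀ := congrArg Prod.snd hi
    refine ⟨fun c hc => ?_, h3⟩
    rw [← h2, Finset.mem_filter]
    exact ⟨fun h => h.2, fun h => ⟨hc, h⟩⟩
  have hmany : ∀ S : Set Ix, S.Countable → ∃ i ∈ J, i ∉ S := by
    intro S hS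
    by_contra hcon
    push Not at hcon
    exact hJ (hS.mono hcon)
  obtain ⟨i₀, hi₀, -⟩ := hmany ∅ countable_empty
  obtain ⟨i₁, hi₁, hne⟩ := hmany {i₀} (countable_singleton _)
  -- values of `ρ` on the coordinates `inl`
  have hρ0 : ∀ (m : ℕ) (D : Set Y), (Sum.inl (m, D) : C) ∈ R →
      ((Sum.inl (m, D) : C) ∈ ρ.1 ↔ y0 i₀ ∈ D) := by
    intro m D h
    rw [(hρ i₀ hi₀).1 _ h, mem_hat_inl]
    constructor
    · rintro (⟨-, h'⟩ | ⟨h', -⟩)
      · exact h'
      · exact absurd h' (Nat.not_lt_zero _)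
    · exact fun h' => Or.inl ⟨Nat.zero_le _, h'⟩
  have hρ1 : ∀ w : Y, (Sum.inr w : C) ∈ R → (Sum.inr w : C) ∉ ρ.1 := by
    intro w hw h
    have h2 := mem_hat_inr.1 (((hρ i₀ hi₀).1 _ hw).1 h)
    have h3 := mem_hat_inr.1 (((hρ i₁ hi₁).1 _ hw).1 h)
    exact hne (y0_inj (h3.symm.trans h2))
  -- the point of rank `n + 1`
  let v : Finset (Set (Yt n)) := (ρ.1.preimage (Sum.inl : ℕ × Set Y → C)
    (Sum.inl_injective.injOn)).image fun c => tr n c.1 c.2
  let z : Y := ⟨n + 1, v⟩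
  obtain ⟨u₀, hu₀⟩ := exists_emb n (y0 i₀) (Nat.zero_le _)
  have htr : ∀ (m : ℕ) (D : Set Y), u₀ ∈ tr n m D ↔ y0 i₀ ∈ D := by
    intro m D
    show (emb n u₀ ∈ D ∧ (emb n u₀).1 ≤ m) ↔ _
    rw [hu₀]
    exact ⟨fun h => h.1, fun h => ⟨h, Nat.zero_le _⟩⟩
  have hz : ∀ c ∈ R, c ∈ ρ.1 ↔ c ∈ hat z := by
    rintro (⟨m, D⟩ | w) hc
    · rw [mem_hat_inl]
      have hlt : m < z.1 := Nat.lt_succ_of_le (hn1 m D hc)
      have h2 : (z.1 ≤ m ∧ z ∈ D ∨ m < z.1 ∧ dflt z (m, D)) ↔ tr n m D ∈ v :=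
        ⟨fun h => h.elim (fun h => absurd h.1 (not_le.2 hlt)) fun h => h.2,
          fun h => Or.inr ⟨hlt, h⟩⟩
      rw [h2]
      constructor
      · intro h
        exact Finset.mem_image.2 ⟨(m, D), Finset.mem_preimage.2 h, rfl⟩
      · intro h
        obtain ⟨⟨m', D'⟩, h3, h4⟩ := Finset.mem_image.1 h
        have h5 := Finset.mem_preimage.1 h3
        have h6 : (Sum.inl (m', D') : C) ∈ R := Finset.mem_powerset.1 ρ.2 h5
        have h7 := (hρ0 m' D' h6).1 h5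
        have h8 : u₀ ∈ tr n m D := by
          have h9 := (htr m' D').2 h7
          have h4 : tr n m' D' = tr n m D := h4
          rwa [h4] at h9
        exact (hρ0 m D hc).2 ((htr m D).1 h8)
    · rw [mem_hat_inr]
      constructor
      · exact fun h => absurd h (hρ1 w hc)
      · intro h
        have h2 := hn2 w hc
        rw [h] at h2
        exact absurd h2 (Nat.not_succ_le_self n)
  -- a neighbourhood of the new point
  have hzr : z ∈ (range y0)ᶜ := by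
    rintro ⟨i, hi⟩
    have := congrArg Sigma.fst hi
    exact absurd this (Nat.succ_ne_zero n).symm
  obtain ⟨Fz, kz, hFz⟩ := isOpen_iff.1 hB _ (hB0 ⟨z, hzr, rfl⟩)
  -- choose the index
  obtain ⟨i, hiJ, hi⟩ : ∃ i ∈ J, i ∉ {i ∈ J' | ∃ c ∈ Fz, c ∈ F i ∧ c ∉ R} := by
    refine hmany _ ?_
    have h2 : {i ∈ J' | ∃ c ∈ Fz, c ∈ F i ∧ c ∉ R} =
        ⋃ c ∈ (Fz : Set C), {i ∈ J' | c ∈ F i ∧ c ∉ R} := by
      ext i
      simp only [mem_iUnion, mem_sep_iff, Finset.mem_coe, exists_prop]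
      exact ⟨fun ⟨h, c, h1, h2⟩ => ⟨c, h1, h, h2⟩, fun ⟨c, h1, h, h2⟩ => ⟨h, c, h1, h2⟩⟩
    rw [h2]
    refine Countable.biUnion Fz.countable_toSet fun c _ => ?_
    refine Set.Subsingleton.countable fun i hi j hj => ?_
    by_contra hij
    exact hi.2.2 (hR' i hi.1 j hj.1 hij c hi.2.1 hj.2.1)
  have hi' : ∀ c ∈ Fz, c ∈ F i → c ∈ R := by
    intro c h2 h3
    by_contra h4
    exact hi ⟨hJJ' hiJ, c, h2, h3, h4⟩
  let x : Set C := {c | (c ∈ F i ∧ c ∈ hat (y0 i)) ∨ (c ∈ Fz ∧ c ∈ hat z)}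
  have hxA : ∀ c ∈ F i, c ∈ x ↔ c ∈ hat (y0 i) := by
    intro c hc
    constructor
    · rintro (h | h)
      · exact h.2
      · have h2 := hi' c h.1 hc
        exact ((hρ i hiJ).1 c h2).1 ((hz c h2).2 h.2)
    · exact fun h => Or.inl ⟨hc, h⟩
  have hxB : ∀ c ∈ Fz, c ∈ x ↔ c ∈ hat z := by
    intro c hc
    constructor
    · rintro (h | h)
      · have h2 := hi' c hc h.1
        exact (hz c h2).1 (((hρ i hiJ).1 c h2).2 h.2)
      · exact h.2
    · exact fun h => Or.inr ⟨hc, h⟩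
  exact Set.disjoint_left.1 hd (hF i (max (k i) kz) x (le_max_left _ _) hxA)
    (hFz (max (k i) kz) x (le_max_right _ _) hxB)

/-- A non-normal completely regular `T₂` space all of whose subsets are `1`-embedded. -/
theorem main : ∃ (X : Type) (_ : TopologicalSpace X), T2Space X ∧ ComplReg X ∧
    ¬ NormalSpace X ∧ (∀ A : Set X, FSigma A) ∧ ∀ E : Set X, OneEmbedded E :=
  ⟨X, inferInstance, t2, complReg_of_clopen clopen_base, not_normal, fSigma_all,
    oneEmbedded_of fSigma_all⟩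

end Pool.Agent.V11242.OE
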